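import Pool.Agent.Helper91.KZ.StL

namespace Pool.Agent.Helper83.KZ

open Pool.Agent.Helper91.KZ Polynomial TensorProduct

universe u

theorem FUN (h1 : ST_TL4.{u}) (h2 : ST_TL1.{u}) (h3 : ST_CHP.{u}) (h4 : ST_MT2.{u}) :
    ST_FUN.{u} := by
  intro k F _ _ _ _ _ m x hx p B hp hB hpB W _ _ _ K _ _
  have hF : SC m F := h1 k F m x hx
  have hW : SC m W := h2 F W m hF
  haveI : Algebra.IsAlgebraic F W := Algebra.IsAlgebraic.of_finite F W
  haveI : PerfectField W := Algebra.IsAlgebraic.perfectField (K := F)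
  by_cases hpW : (p : W) = 0
  · obtain ⟨j, rfl⟩ : ∃ j, B = j + 1 := ⟨B - 1, by omega⟩
    exact h3 p j W hp hpW K
  · set f : k →+* W := (algebraMap F W).comp (algebraMap k F) with hf
    have hpk : (p : k) ≠ 0 := by
      intro h0
      apply hpW
      rw [← map_natCast f p, h0, map_zero]
    haveI : NeZero (p : k) := ⟨hpk⟩
    obtain ⟨z, hz⟩ : ∃ z : k, IsRoot (cyclotomic p k) z := by
      refine IsAlgClosed.exists_root _ ?_
      rw [degree_cyclotomic]
      have : 0 < Nat.totient p := Nat.totient_pos.mpr hp.pos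
      exact_mod_cast this.ne'
    have hz' : IsPrimitiveRoot z p := isRoot_cyclotomic_iff.mp hz
    exact h4 p m B W (f z) hp (hz'.map_of_injective f.injective) hW hpB K

end Pool.Agent.Helper83.KZ
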